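import Pool.Agent.Run7.h62.RV.Iface

/-!
# MP_620441_co, pieces BRI, RAD, PRI
-/

set_option autoImplicit false

namespace Run7.h632.RV

open Finset Pool.Agent.Run7.h62.RV

noncomputable section

open scoped Classical

/-- the sides of an affine functional are convex -/
theorem conv_pos {d : ℕ} (f : VS d →ₗ[ℝ] ℝ) (c : ℝ) : Convex ℝ {x : Pt d | 0 < c * f (1, x)} := by
  intro x hx y hy a b ha hb hab
  simp only [Set.mem_ofPred_eq] at hx hy ⊢
  have h1 : ((1 : ℝ), a • x + b • y) = a • ((1 : ℝ), x) + b • ((1 : ℝ), y) := by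
    ext1
    · simp [hab]
    · simp
  rw [h1, map_add, map_smul, map_smul, smul_eq_mul, smul_eq_mul]
  rcases eq_or_lt_of_le ha with h0 | h0
  · subst h0
    have : b = 1 := by linarith
    subst this
    simpa using hy
  · have h2 : 0 < a * (c * f (1, x)) := mul_pos h0 hx
    have h3 : 0 ≤ b * (c * f (1, y)) := mul_nonneg hb hy.le
    nlinarith

/-- **BRI** -/
theorem bri : S_BRI := by
  intro s d p A B hAB
  rw [← Set.not_disjoint_iff_nonempty_inter, not_iff_not]
  constructor
  · intro hdisj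
    obtain ⟨f, u, v, h1, huv, h2⟩ := geometric_hahn_banach_compact_closed
      (convex_convexHull ℝ _) ((A.image p).finite_toSet.isCompact_convexHull (𝕜 := ℝ))
      (convex_convexHull ℝ _) ((B.image p).finite_toSet.isClosed_convexHull (𝕜 := ℝ)) hdisj
    refine ⟨u • LinearMap.fst ℝ ℝ (Pt d) - f.toLinearMap ∘ₗ LinearMap.snd ℝ ℝ (Pt d), ?_⟩
    intro j hj
    have hval : (u • LinearMap.fst ℝ ℝ (Pt d) - f.toLinearMap ∘ₗ LinearMap.snd ℝ ℝ (Pt d))
        (Pool.Agent.Run7.h62.RV.lift p j) = u - f (p j) := by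
      simp [Pool.Agent.Run7.h62.RV.lift]
    rw [hval]
    rcases mem_union.1 hj with hA | hB
    · have := h1 (p j) (subset_convexHull ℝ _ (by simpa using ⟨j, hA, rfl⟩))
      rw [sgn, if_pos hA]
      linarith
    · have hA : j ∉ A := fun h => (Finset.disjoint_left.1 hAB h) hB
      have := h2 (p j) (subset_convexHull ℝ _ (by simpa using ⟨j, hB, rfl⟩))
      rw [sgn, if_neg hA]
      linarith
  · rintro ⟨f, hf⟩
    rw [Set.disjoint_left]
    intro x hxA hxB
    have h1 : x ∈ {x : Pt d | 0 < 1 * f (1, x)} := by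
      refine convexHull_min ?_ (conv_pos f 1) hxA
      intro y hy
      simp only [coe_image, Set.mem_image, mem_coe] at hy
      obtain ⟨j, hj, rfl⟩ := hy
      have := hf j (mem_union_left _ hj)
      rw [sgn, if_pos hj] at this
      exact this
    have h2 : x ∈ {x : Pt d | 0 < -1 * f (1, x)} := by
      refine convexHull_min ?_ (conv_pos f (-1)) hxB
      intro y hy
      simp only [coe_image, Set.mem_image, mem_coe] at hy
      obtain ⟨j, hj, rfl⟩ := hy
      have := hf j (mem_union_right _ hj)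
      rw [sgn, if_neg (fun h => (Finset.disjoint_left.1 hAB h) hj)] at this
      exact this
    simp only [Set.mem_ofPred_eq] at h1 h2
    linarith

/-! ### symmetry -/

theorem sep_compl {s d : ℕ} (v : Fin s → VS d) (J T : Finset (Fin s)) (h : Sep v J T) :
    Sep v J (J \ T) := by
  obtain ⟨f, hf⟩ := h
  refine ⟨-f, fun j hj => ?_⟩
  have := hf j hj
  unfold sgn at this ⊢
  by_cases hT : j ∈ T
  · have h2 : j ∉ J \ T := by simp [hT]
    rw [if_pos hT] at this
    rw [if_neg h2]
    simp only [LinearMap.neg_apply]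
    linarith
  · have h2 : j ∈ J \ T := by simp [hT, hj]
    rw [if_neg hT] at this
    rw [if_pos h2]
    simp only [LinearMap.neg_apply]
    linarith

theorem ns_compl {s d : ℕ} (v : Fin s → VS d) (J T : Finset (Fin s)) (h : T ∈ NS v J) :
    J \ T ∈ NS v J := by
  unfold NS at h ⊢
  rw [mem_filter, mem_powerset] at h ⊢
  refine ⟨sdiff_subset, fun hs => h.2 ?_⟩
  have := sep_compl v J _ hs
  rwa [Finset.sdiff_sdiff_eq_self h.1] at this

theorem ns_sub {s d : ℕ} {v : Fin s → VS d} {J T : Finset (Fin s)} (h : T ∈ NS v J) : T ⊆ J := by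
  unfold NS at h
  rw [mem_filter, mem_powerset] at h
  exact h.1

theorem count_symm {s d : ℕ} (v : Fin s → VS d) (J : Finset (Fin s)) (m i : ℕ) (hm : J.card = m)
    (hi : i ≤ m) : ((NS v J).filter (fun T => T.card = m - i)).card
      = ((NS v J).filter (fun T => T.card = i)).card := by
  refine Finset.card_bij' (fun T _ => J \ T) (fun T _ => J \ T) ?_ ?_ ?_ ?_
  · intro T hT
    rw [mem_filter] at hT ⊢
    refine ⟨ns_compl v J T hT.1, ?_⟩
    rw [card_sdiff_of_subset (ns_sub hT.1), hT.2, hm]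
    omega
  · intro T hT
    rw [mem_filter] at hT ⊢
    refine ⟨ns_compl v J T hT.1, ?_⟩
    rw [card_sdiff_of_subset (ns_sub hT.1), hT.2, hm]
  · intro T hT
    rw [mem_filter] at hT
    exact Finset.sdiff_sdiff_eq_self (ns_sub hT.1)
  · intro T hT
    rw [mem_filter] at hT
    exact Finset.sdiff_sdiff_eq_self (ns_sub hT.1)

theorem sep_self {s d : ℕ} (p : Fin s → Pt d) (J : Finset (Fin s)) :
    Sep (Pool.Agent.Run7.h62.RV.lift p) J J := by
  refine ⟨LinearMap.fst ℝ ℝ (Pt d), fun j hj => ?_⟩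
  rw [sgn, if_pos hj]
  simp [Pool.Agent.Run7.h62.RV.lift]

theorem count_m {s d : ℕ} (p : Fin s → Pt d) (J : Finset (Fin s)) (m : ℕ) (hm : J.card = m) :
    ((NS (Pool.Agent.Run7.h62.RV.lift p) J).filter (fun T => T.card = m)).card = 0 := by
  rw [card_eq_zero, filter_eq_empty_iff]
  intro T hT hc
  have : T = J := eq_of_subset_of_card_le (ns_sub hT) (by omega)
  subst this
  unfold NS at hT
  rw [mem_filter] at hT
  exact hT.2 (sep_self p T)

theorem count_zero {s d : ℕ} (p : Fin s → Pt d) (J : Finset (Fin s)) :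
    ((NS (Pool.Agent.Run7.h62.RV.lift p) J).filter (fun T => T.card = 0)).card = 0 := by
  have := count_symm (Pool.Agent.Run7.h62.RV.lift p) J J.card J.card rfl le_rfl
  rw [Nat.sub_self] at this
  rw [this, count_m p J _ rfl]

/-! ### unordered pairs -/

theorem unord {d : ℕ} (m i : ℕ) (N : Finset (Finset (Pt d) × Finset (Pt d)))
    (h : ∀ x ∈ N, x.1.card = i ∧ x.2.card = m - i ∧ x.1 ≠ x.2)
    (hsw : 2 * i = m → ∀ x ∈ N, x.swap ∈ N) (hi : 2 * i ≤ m) :
    (if 2 * i = m then 2 else 1) * (N.image (fun x => ({x.1, x.2} : Finset (Finset (Pt d))))).card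
      = N.card := by
  have hpair : ∀ x y : Finset (Pt d) × Finset (Pt d), ({x.1, x.2} : Finset (Finset (Pt d))) = {y.1, y.2} →
      x = y ∨ x = y.swap := by
    intro x y hxy
    have h1 : ({x.1, x.2} : Set (Finset (Pt d))) = {y.1, y.2} := by
      have := congrArg (fun s : Finset (Finset (Pt d)) => (s : Set (Finset (Pt d)))) hxy
      simpa using this
    rcases Set.pair_eq_pair_iff.1 h1 with h2 | h2
    · exact Or.inl (Prod.ext h2.1 h2.2)
    · exact Or.inr (Prod.ext h2.1 h2.2)
  split_ifs with h2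
  · rw [Finset.card_eq_sum_card_image (fun x => ({x.1, x.2} : Finset (Finset (Pt d)))) N, mul_comm,
      ← smul_eq_mul, ← Finset.sum_const]
    refine Finset.sum_congr rfl fun b hb => ?_
    rw [mem_image] at hb
    obtain ⟨x, hx, rfl⟩ := hb
    have hne : x ≠ x.swap := by
      intro he
      exact (h x hx).2.2 (congrArg Prod.fst he)
    have : N.filter (fun y => ({y.1, y.2} : Finset (Finset (Pt d))) = {x.1, x.2}) = {x, x.swap} := by
      ext y
      rw [mem_filter, mem_insert, mem_singleton]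
      constructor
      · rintro ⟨_, hy⟩
        exact hpair y x hy
      · rintro (rfl | rfl)
        · exact ⟨hx, rfl⟩
        · exact ⟨hsw h2 x hx, pair_comm _ _⟩
    rw [this, card_pair hne]
  · rw [one_mul]
    refine card_image_of_injOn ?_
    intro x hx y hy hxy
    rcases hpair x y hxy with h3 | h3
    · exact h3
    · exfalso
      have h4 := (h x hx).1
      rw [h3, Prod.fst_swap, (h y hy).2.1] at h4
      omega

/-! ### the pairs of images -/

/-- the pairs of images -/
def prs {s d : ℕ} (p : Fin s → Pt d) (JJ : Finset (Finset (Fin s))) (i : ℕ) :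
    Finset (Finset (Pt d) × Finset (Pt d)) :=
  JJ.biUnion fun J => ((NS (Pool.Agent.Run7.h62.RV.lift p) J).filter (fun T => T.card = i)).image
    (fun T => (T.image p, (J \ T).image p))

theorem mem_prs {s d : ℕ} (p : Fin s → Pt d) (JJ : Finset (Finset (Fin s))) (i : ℕ)
    (x : Finset (Pt d) × Finset (Pt d)) : x ∈ prs p JJ i ↔ ∃ J ∈ JJ, ∃ T,
      T ∈ NS (Pool.Agent.Run7.h62.RV.lift p) J ∧ T.card = i ∧ x = (T.image p, (J \ T).image p) := by
  unfold prs
  simp only [mem_biUnion, mem_image, mem_filter]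
  constructor
  · rintro ⟨J, hJ, T, ⟨h1, h2⟩, h3⟩
    exact ⟨J, hJ, T, h1, h2, h3.symm⟩
  · rintro ⟨J, hJ, T, h1, h2, h3⟩
    exact ⟨J, hJ, T, ⟨h1, h2⟩, h3.symm⟩

theorem card_prs {s d : ℕ} (p : Fin s → Pt d) (hp : Function.Injective p)
    (JJ : Finset (Finset (Fin s))) (i : ℕ) : (prs p JJ i).card =
      ∑ J ∈ JJ, ((NS (Pool.Agent.Run7.h62.RV.lift p) J).filter (fun T => T.card = i)).card := by
  unfold prs
  rw [card_biUnion]
  · refine sum_congr rfl fun J hJ => ?_
    rw [card_image_of_injOn]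
    intro T hT T' hT' h
    exact image_injective hp (congrArg Prod.fst h)
  · intro J hJ J' hJ' hne
    rw [Function.onFun, disjoint_left]
    intro x hx hx'
    rw [mem_image] at hx hx'
    obtain ⟨T, hT, rfl⟩ := hx
    obtain ⟨T', hT', h⟩ := hx'
    rw [mem_filter] at hT hT'
    apply hne
    have h1 : T' = T := image_injective hp (congrArg Prod.fst h)
    have h2 : J' \ T' = J \ T := image_injective hp (congrArg Prod.snd h)
    rw [← union_sdiff_of_subset (ns_sub hT.1), ← union_sdiff_of_subset (ns_sub hT'.1), h1, ← h2, h1]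

theorem count_main {s d : ℕ} (p : Fin s → Pt d) (hp : Function.Injective p)
    (JJ : Finset (Finset (Fin s))) (m i : ℕ) (hJJ : ∀ J ∈ JJ, J.card = m) (hi1 : 1 ≤ i)
    (hi : 2 * i ≤ m) : (if 2 * i = m then 2 else 1) *
      ((prs p JJ i).image (fun x => ({x.1, x.2} : Finset (Finset (Pt d))))).card =
      ∑ J ∈ JJ, ((NS (Pool.Agent.Run7.h62.RV.lift p) J).filter (fun T => T.card = i)).card := by
  rw [← card_prs p hp JJ i]
  refine unord m i _ ?_ ?_ hi
  · intro x hx
    rw [mem_prs] at hx
    obtain ⟨J, hJ, T, hT, hTi, rfl⟩ := hx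
    refine ⟨by rw [card_image_of_injective _ hp, hTi], ?_, ?_⟩
    · change ((J \ T).image p).card = m - i
      rw [card_image_of_injective _ hp, card_sdiff_of_subset (ns_sub hT), hTi, hJJ J hJ]
    · intro he
      have h1 : T = J \ T := image_injective hp he
      obtain ⟨a, ha⟩ := card_pos.1 (by omega : 0 < T.card)
      have h2 := ha
      rw [h1] at h2
      exact (mem_sdiff.1 h2).2 ha
  · intro h2 x hx
    rw [mem_prs] at hx ⊢
    obtain ⟨J, hJ, T, hT, hTi, rfl⟩ := hx
    refine ⟨J, hJ, J \ T, ns_compl _ _ _ hT, ?_, ?_⟩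
    · rw [card_sdiff_of_subset (ns_sub hT), hTi, hJJ J hJ]
      omega
    · rw [Finset.sdiff_sdiff_eq_self (ns_sub hT)]
      rfl

theorem pair_iff (hb : S_BRI) {s d : ℕ} (p : Fin s → Pt d) (hp : Function.Injective p)
    (A B : Finset (Fin s)) : RadonPair (A.image p) (B.image p) ↔
      A.Nonempty ∧ B.Nonempty ∧ Disjoint A B ∧ ¬ Sep (Pool.Agent.Run7.h62.RV.lift p) (A ∪ B) A := by
  unfold RadonPair
  rw [image_nonempty, image_nonempty, disjoint_image hp]
  constructor
  · rintro ⟨h1, h2, h3, h4⟩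
    exact ⟨h1, h2, h3, (hb s d p A B h3).1 h4⟩
  · rintro ⟨h1, h2, h3, h4⟩
    exact ⟨h1, h2, h3, (hb s d p A B h3).2 h4⟩

theorem pre {s d : ℕ} (p : Fin s → Pt d) (T : Finset (Pt d)) (hT : T ⊆ univ.image p) :
    ∃ A : Finset (Fin s), A.image p = T := by
  refine ⟨univ.filter (fun j => p j ∈ T), ?_⟩
  ext x
  rw [mem_image]
  constructor
  · rintro ⟨j, hj, rfl⟩
    exact (mem_filter.1 hj).2
  · intro hx
    obtain ⟨j, _, hj⟩ := mem_image.1 (hT hx)
    exact ⟨j, mem_filter.2 ⟨mem_univ _, by rw [hj]; exact hx⟩, hj⟩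

theorem gen_inj {s d : ℕ} (p : Fin s → Pt d) (hd : 1 ≤ d)
    (hg : Gen (Pool.Agent.Run7.h62.RV.lift p)) : Function.Injective p := by
  intro i j hij
  by_contra hne
  have h := hg {i, j} (by rw [card_pair hne]; omega)
  have hi : i ∈ ({i, j} : Finset (Fin s)) := by simp
  have hj : j ∈ ({i, j} : Finset (Fin s)) := by simp
  have h2 : Pool.Agent.Run7.h62.RV.lift p i = Pool.Agent.Run7.h62.RV.lift p j := by
    unfold Pool.Agent.Run7.h62.RV.lift
    rw [hij]
  have h1 : (⟨i, hi⟩ : ({i, j} : Finset (Fin s))) = ⟨j, hj⟩ := h.injective h2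
  exact hne (congrArg Subtype.val h1)

theorem not_sep {s d : ℕ} {v : Fin s → VS d} {J T : Finset (Fin s)} (h : T ∈ NS v J) :
    ¬ Sep v J T := by
  unfold NS at h
  rw [mem_filter] at h
  exact h.2

/-- **RAD** -/
theorem rad : S_RAD := by
  intro hb s d p hd hs hg
  have hp := gen_inj p hd hg
  have hc : (univ : Finset (Fin s)).card = s := by simp
  refine ⟨count_zero p univ, count_m p univ s hc,
    fun i hi => count_symm _ univ s i hc hi, ?_⟩
  intro i hi1 hi
  have h1 := count_main p hp {univ} s i (by simp) hi1 hi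
  rw [sum_singleton] at h1
  unfold RN
  rw [← h1]
  congr 1
  unfold radonNumber
  rw [← Set.ncard_coe_finset]
  congr 1
  have hcS : (univ.image p).card = s := by rw [card_image_of_injective _ hp, hc]
  ext π
  rw [mem_coe, mem_image]
  constructor
  · rintro ⟨T₁, T₂, rfl, hU, hR, h3, h4⟩
    obtain ⟨A, rfl⟩ := pre p T₁ (by rw [← hU]; exact subset_union_left)
    obtain ⟨B, rfl⟩ := pre p T₂ (by rw [← hU]; exact subset_union_right)
    rw [← image_union] at hU
    have hAB : A ∪ B = univ := image_injective hp hU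
    obtain ⟨_, _, hdis, hns⟩ := (pair_iff hb p hp A B).1 hR
    have hB : univ \ A = B := by
      rw [← hAB, union_sdiff_cancel_left hdis]
    refine ⟨(A.image p, B.image p), ?_, rfl⟩
    rw [mem_prs]
    refine ⟨univ, by simp, A, ?_, ?_, by rw [hB]⟩
    · unfold NS
      rw [mem_filter]
      exact ⟨by simp, by rw [← hAB]; exact hns⟩
    · rw [← h3, card_image_of_injective _ hp]
  · rintro ⟨x, hx, rfl⟩
    rw [mem_prs] at hx
    obtain ⟨J, hJ, T, hT, hTi, rfl⟩ := hx
    rw [mem_singleton] at hJ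
    subst hJ
    have hcT : (univ \ T).card = s - i := by
      rw [card_sdiff_of_subset (subset_univ _), hTi, hc]
    refine ⟨T.image p, (univ \ T).image p, rfl, ?_, ?_, ?_, ?_⟩
    · rw [← image_union, union_sdiff_of_subset (subset_univ _)]
    · rw [pair_iff hb p hp]
      refine ⟨card_pos.1 (by omega), card_pos.1 (by omega), disjoint_sdiff, ?_⟩
      rw [union_sdiff_of_subset (subset_univ _)]
      exact not_sep hT
    · rw [card_image_of_injective _ hp, hTi]
    · rw [card_image_of_injective _ hp, hcT, hcS]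

/-- **PRI** -/
theorem pri : S_PRI := by
  intro hb hgor _ s d p hd hs hg
  have hp := gen_inj p hd hg
  have hJc : ∀ J ∈ powersetCard (d + 2) (univ : Finset (Fin s)), J.card = d + 2 := fun J hJ =>
    (mem_powersetCard.1 hJ).2
  refine ⟨?_, ?_, ?_, ?_⟩
  · exact sum_eq_zero fun J _ => count_zero p J
  · exact sum_eq_zero fun J hJ => count_m p J _ (hJc J hJ)
  · intro i hi
    exact sum_congr rfl fun J hJ => count_symm _ J _ i (hJc J hJ) hi
  intro i hi1 hi
  have h1 := count_main p hp (powersetCard (d + 2) univ) (d + 2) i hJc hi1 hi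
  unfold PN
  rw [← h1]
  congr 1
  unfold primitiveNumber
  rw [← Set.ncard_coe_finset]
  congr 1
  ext π
  rw [mem_coe, mem_image]
  constructor
  · rintro ⟨T₁, T₂, rfl, hs1, hs2, hR, _, h3, h4⟩
    obtain ⟨A, rfl⟩ := pre p T₁ hs1
    obtain ⟨B, rfl⟩ := pre p T₂ hs2
    obtain ⟨_, _, hdis, hns⟩ := (pair_iff hb p hp A B).1 hR
    rw [card_image_of_injective _ hp] at h3 h4
    have hB : (A ∪ B) \ A = B := union_sdiff_cancel_left hdis
    refine ⟨(A.image p, B.image p), ?_, rfl⟩
    rw [mem_prs]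
    refine ⟨A ∪ B, ?_, A, ?_, h3, by rw [hB]⟩
    · rw [mem_powersetCard]
      refine ⟨subset_univ _, ?_⟩
      rw [card_union_of_disjoint hdis, h3, h4]
      omega
    · unfold NS
      rw [mem_filter, mem_powerset]
      exact ⟨subset_union_left, hns⟩
  · rintro ⟨x, hx, rfl⟩
    rw [mem_prs] at hx
    obtain ⟨J, hJ, T, hT, hTi, rfl⟩ := hx
    have hJ2 := hJc J hJ
    have hTJ := ns_sub hT
    have hcT : (J \ T).card = d + 2 - i := by
      rw [card_sdiff_of_subset hTJ, hTi, hJ2]
    refine ⟨T.image p, (J \ T).image p, rfl, image_subset_image (subset_univ _),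
      image_subset_image (subset_univ _), ?_, ?_, ?_, ?_⟩
    · rw [pair_iff hb p hp]
      refine ⟨card_pos.1 (by omega), card_pos.1 (by omega), disjoint_sdiff, ?_⟩
      rw [union_sdiff_of_subset hTJ]
      exact not_sep hT
    · intro T₁' T₂' hT1 hT2 hR
      obtain ⟨A, rfl⟩ := pre p T₁' (hT1.trans (image_subset_image (subset_univ _)))
      obtain ⟨B, rfl⟩ := pre p T₂' (hT2.trans (image_subset_image (subset_univ _)))
      rw [image_subset_image_iff hp] at hT1 hT2
      obtain ⟨_, _, hdis, hns⟩ := (pair_iff hb p hp A B).1 hR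
      obtain ⟨x, hx0, hxs, _, hxv⟩ := (hgor s d _ _ _).1 hns
      have hAB : A ∪ B ⊆ J := union_subset (hT1.trans hTJ) (hT2.trans sdiff_subset)
      have hcard : ¬ (A ∪ B).card ≤ d + 1 := by
        intro hle
        have hli := hg (A ∪ B) hle
        apply hx0
        rw [Fintype.linearIndependent_iff] at hli
        have hz := hli (fun j => x j) (by
          rw [← hxv]
          rw [← sum_subset (subset_univ (A ∪ B)) (fun j _ hj => by rw [hxs j hj, zero_smul])]
          exact (Finset.sum_coe_sort (A ∪ B)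
            (fun j => x j • Pool.Agent.Run7.h62.RV.lift p j)))
        funext j
        by_cases hj : j ∈ A ∪ B
        · exact hz ⟨j, hj⟩
        · exact hxs j hj
      have hEq : A ∪ B = J := eq_of_subset_of_card_le hAB (by omega)
      have hA : A = T := by
        refine Subset.antisymm hT1 ?_
        intro j hj
        rcases mem_union.1 (by rw [hEq]; exact hTJ hj : j ∈ A ∪ B) with h | h
        · exact h
        · exact absurd hj (mem_sdiff.1 (hT2 h)).2
      have hB : B = J \ T := by
        rw [← hEq, ← hA, union_sdiff_cancel_left hdis]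
      rw [hA, hB]
    · rw [card_image_of_injective _ hp, hTi]
    · rw [card_image_of_injective _ hp, hcT]

end

end Run7.h632.RV
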